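import Mathlib
import Pool.Agent.R172.BipWord
import Pool.Agent.R172.Moment3

set_option autoImplicit false

/-!
# There is a graph which is not 3-Tverberg

We count the bipartite graphs with `n + n` vertices which are partition induced on points of the
moment curve in `ℝ³`. Two hulls of sets of points of the moment curve meet if and only if the
parameters contain an alternating chain of length five. The words on each of the two sides are
Davenport-Schinzel sequences of order three, of length `O(n log n)`, so every graph which is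
induced on a set of points of the moment curve is already described by a word of length
`O(n log n)`, and there are fewer than `2 ^ (n²)` such words.
-/

namespace Pool.Agent.Results.MP_ba10a5_co.NotTverberg

open Set Pool.Agent.R172.DS Pool.Agent.R172.Moment3

/-- General position: no `d + 1` of the points lie on a common affine hyperplane. -/
def GenPos {d : ℕ} (S : Finset (Fin d → ℝ)) : Prop :=
  ∀ T ⊆ S, T.card = d + 1 → ¬ ∃ (w : Fin d → ℝ) (b : ℝ), w ≠ 0 ∧ ∀ x ∈ T, ∑ i, w i * x i = b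

/-- The hull of the class `v` of the partition of `S` given by the colouring `c`. -/
def hull {d : ℕ} {V : Type} (S : Finset (Fin d → ℝ)) (c : (Fin d → ℝ) → V) (v : V) :
    Set (Fin d → ℝ) :=
  convexHull ℝ {x | x ∈ S ∧ c x = v}

/-- The graph `G` is partition induced on `S`: there is a partition of `S` into nonempty classes
indexed by the vertices, such that two hulls meet if and only if the vertices are adjacent, and no
three hulls have a common point. -/
def InducedOn {d : ℕ} {V : Type} (G : SimpleGraph V) (S : Finset (Fin d → ℝ)) : Prop :=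
  ∃ c : (Fin d → ℝ) → V, (∀ v, ∃ x ∈ S, c x = v) ∧
    (∀ v w, v ≠ w → (G.Adj v w ↔ (hull S c v ∩ hull S c w).Nonempty)) ∧
    ∀ u v w, u ≠ v → v ≠ w → u ≠ w → hull S c u ∩ hull S c v ∩ hull S c w = ∅

/-- The graph `G` is `d`-Tverberg. -/
def IsTverberg (d : ℕ) {V : Type} (G : SimpleGraph V) : Prop :=
  ∃ C : ℕ, ∀ S : Finset (Fin d → ℝ), GenPos S → C < S.card → InducedOn G S

/-- the points of the moment curve with parameters `0, ..., N - 1` -/
noncomputable def pts (N : ℕ) : Finset (Fin 3 → ℝ) :=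
  (Finset.range N).map ⟨fun i : ℕ => mc (i : ℝ), fun i j h => by
    have := mc_injective h
    exact_mod_cast this⟩

lemma mem_pts {N : ℕ} {x : Fin 3 → ℝ} : x ∈ pts N ↔ ∃ i < N, mc (i : ℝ) = x := by
  unfold pts
  rw [Finset.mem_map]
  simp only [Finset.mem_range]
  rfl

lemma card_pts (N : ℕ) : (pts N).card = N := by
  simp [pts]

lemma genPos_pts (N : ℕ) : GenPos (pts N) := by
  classical
  rintro T hT hcard ⟨w, b, hw, h⟩
  let Z : Finset ℝ := T.image (fun x => x 0)
  have hinj : Set.InjOn (fun x : Fin 3 → ℝ => x 0) (T : Set (Fin 3 → ℝ)) := by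
    intro x hx y hy hxy
    obtain ⟨i, -, rfl⟩ := mem_pts.1 (hT hx)
    obtain ⟨j, -, rfl⟩ := mem_pts.1 (hT hy)
    simp only [mc_zero] at hxy
    rw [hxy]
  have hZc : Z.card = 4 := by
    rw [Finset.card_image_of_injOn hinj, hcard]
  have := cubic_roots (a := w 2) (b := w 1) (c := w 0) (e := -b) Z (by
    intro t ht
    obtain ⟨x, hx, rfl⟩ := Finset.mem_image.1 ht
    have h1 := h x hx
    obtain ⟨i, -, rfl⟩ := mem_pts.1 (hT hx)
    rw [Fin.sum_univ_three] at h1
    simp only [mc_zero, mc_one, mc_two] at h1 ⊢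
    linarith) (by
    rintro ⟨h2, h1, h0, -⟩
    apply hw
    funext i
    fin_cases i
    · exact h0
    · exact h1
    · exact h2)
  omega

/-- The word of a colouring of the points. -/
noncomputable def word {V : Type} (N : ℕ) (c : (Fin 3 → ℝ) → V) : List V :=
  List.ofFn (fun i : Fin N => c (mc ((i : ℕ) : ℝ)))

lemma five_iff {V : Type} {N : ℕ} {c : (Fin 3 → ℝ) → V} {a b : V} :
    Five (word N c) a b ↔ ∃ i₁ i₂ i₃ i₄ i₅ : ℕ, i₁ < i₂ ∧ i₂ < i₃ ∧ i₃ < i₄ ∧ i₄ < i₅ ∧ i₅ < N ∧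
      c (mc i₁) = a ∧ c (mc i₂) = b ∧ c (mc i₃) = a ∧ c (mc i₄) = b ∧ c (mc i₅) = a := by
  unfold Five
  rw [List.sublist_iff_exists_fin_orderEmbedding_get_eq]
  constructor
  · rintro ⟨f, hf⟩
    have hlen : (word N c).length = N := by simp [word]
    have hget : ∀ k : Fin 5, c (mc (((f k : Fin (word N c).length) : ℕ) : ℝ)) =
        [a, b, a, b, a].get k := by
      intro k
      rw [hf k]
      simp [word]
    have h01 : f (0 : Fin 5) < f (1 : Fin 5) :=
      f.strictMono (show (0 : Fin 5) < 1 by decide)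
    have h12 : f (1 : Fin 5) < f (2 : Fin 5) :=
      f.strictMono (show (1 : Fin 5) < 2 by decide)
    have h23 : f (2 : Fin 5) < f (3 : Fin 5) :=
      f.strictMono (show (2 : Fin 5) < 3 by decide)
    have h34 : f (3 : Fin 5) < f (4 : Fin 5) :=
      f.strictMono (show (3 : Fin 5) < 4 by decide)
    refine ⟨f (0 : Fin 5), f (1 : Fin 5), f (2 : Fin 5), f (3 : Fin 5), f (4 : Fin 5),
      h01, h12, h23, h34, ?_, hget 0, hget 1, hget 2, hget 3, hget 4⟩
    have := (f (4 : Fin 5)).2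
    omega
  · rintro ⟨i₁, i₂, i₃, i₄, i₅, h12, h23, h34, h45, h5, c1, c2, c3, c4, c5⟩
    have hlen : (word N c).length = N := by simp [word]
    let g : Fin 5 → Fin (word N c).length := ![⟨i₁, by omega⟩, ⟨i₂, by omega⟩, ⟨i₃, by omega⟩,
      ⟨i₄, by omega⟩, ⟨i₅, by omega⟩]
    have hg : StrictMono g := by
      rw [Fin.strictMono_iff_lt_succ]
      intro k
      fin_cases k
      · exact h12
      · exact h23
      · exact h34
      · exact h45
    refine ⟨OrderEmbedding.ofStrictMono g hg, ?_⟩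
    intro k
    have hget : ∀ i : Fin (word N c).length, (word N c).get i = c (mc (((i : ℕ)) : ℝ)) := by
      intro i
      rw [List.get_eq_getElem]
      unfold word
      rw [List.getElem_ofFn]
    rw [hget]
    match k with
    | 0 => exact c1.symm
    | 1 => exact c2.symm
    | 2 => exact c3.symm
    | 3 => exact c4.symm
    | 4 => exact c5.symm

lemma hull_inter_iff {V : Type} {N : ℕ} {c : (Fin 3 → ℝ) → V} {a b : V} (hab : a ≠ b) :
    (hull (pts N) c a ∩ hull (pts N) c b).Nonempty ↔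
      (Five (word N c) a b ∨ Five (word N c) b a) := by
  classical
  let A : V → Finset ℝ := fun v => ((Finset.range N).filter (fun i : ℕ => c (mc (i : ℝ)) = v)).image
    (fun i : ℕ => (i : ℝ))
  have hA : ∀ v, {x | x ∈ pts N ∧ c x = v} = mc '' (A v : Set ℝ) := by
    intro v
    ext x
    constructor
    · rintro ⟨hx, hxv⟩
      obtain ⟨i, hi, rfl⟩ := mem_pts.1 hx
      refine ⟨(i : ℝ), ?_, rfl⟩
      simp only [A, Finset.coe_image, Finset.coe_filter, Finset.mem_range, Set.mem_image,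
        Set.mem_ofPred_eq]
      exact ⟨i, ⟨hi, hxv⟩, rfl⟩
    · rintro ⟨t, ht, rfl⟩
      simp only [A, Finset.coe_image, Finset.coe_filter, Finset.mem_range, Set.mem_image,
        Set.mem_ofPred_eq] at ht
      obtain ⟨i, ⟨hi, hiv⟩, rfl⟩ := ht
      exact ⟨mem_pts.2 ⟨i, hi, rfl⟩, hiv⟩
  have hmemA : ∀ v t, t ∈ A v ↔ ∃ i < N, c (mc (i : ℝ)) = v ∧ (i : ℝ) = t := by
    intro v t
    simp only [A, Finset.mem_image, Finset.mem_filter, Finset.mem_range]
    constructor
    · rintro ⟨i, ⟨h1, h2⟩, h3⟩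
      exact ⟨i, h1, h2, h3⟩
    · rintro ⟨i, h1, h2, h3⟩
      exact ⟨i, ⟨h1, h2⟩, h3⟩
  have hdisj : Disjoint (A a) (A b) := by
    rw [Finset.disjoint_left]
    intro t ht ht'
    obtain ⟨i, -, h1, rfl⟩ := (hmemA a t).1 ht
    obtain ⟨j, -, h2, h3⟩ := (hmemA b _).1 ht'
    have : j = i := by exact_mod_cast h3
    subst this
    exact hab (h1.symm.trans h2)
  have key : ∀ u v : V, (∃ t₁ ∈ A u, ∃ t₂ ∈ A v, ∃ t₃ ∈ A u, ∃ t₄ ∈ A v, ∃ t₅ ∈ A u,
      t₁ < t₂ ∧ t₂ < t₃ ∧ t₃ < t₄ ∧ t₄ < t₅) → Five (word N c) u v := by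
    rintro u v ⟨t₁, h₁, t₂, h₂, t₃, h₃, t₄, h₄, t₅, h₅, l₁, l₂, l₃, l₄⟩
    obtain ⟨i₁, -, c₁, rfl⟩ := (hmemA _ _).1 h₁
    obtain ⟨i₂, -, c₂, rfl⟩ := (hmemA _ _).1 h₂
    obtain ⟨i₃, -, c₃, rfl⟩ := (hmemA _ _).1 h₃
    obtain ⟨i₄, -, c₄, rfl⟩ := (hmemA _ _).1 h₄
    obtain ⟨i₅, hi₅, c₅, rfl⟩ := (hmemA _ _).1 h₅
    exact five_iff.2 ⟨i₁, i₂, i₃, i₄, i₅, by exact_mod_cast l₁, by exact_mod_cast l₂,
      by exact_mod_cast l₃, by exact_mod_cast l₄, hi₅, c₁, c₂, c₃, c₄, c₅⟩
  have key' : ∀ u v : V, Five (word N c) u v →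
      (hull (pts N) c u ∩ hull (pts N) c v).Nonempty := by
    intro u v h
    obtain ⟨i₁, i₂, i₃, i₄, i₅, h12, h23, h34, h45, h5, c1, c2, c3, c4, c5⟩ := five_iff.1 h
    unfold hull
    exact hull_meet (t₁ := i₁) (t₂ := i₂) (t₃ := i₃) (t₄ := i₄) (t₅ := i₅)
      (by exact_mod_cast h12) (by exact_mod_cast h23) (by exact_mod_cast h34)
      (by exact_mod_cast h45) ⟨mem_pts.2 ⟨i₁, by omega, rfl⟩, c1⟩
      ⟨mem_pts.2 ⟨i₂, by omega, rfl⟩, c2⟩ ⟨mem_pts.2 ⟨i₃, by omega, rfl⟩, c3⟩
      ⟨mem_pts.2 ⟨i₄, by omega, rfl⟩, c4⟩ ⟨mem_pts.2 ⟨i₅, by omega, rfl⟩, c5⟩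
  constructor
  · intro h
    unfold hull at h
    rw [hA, hA] at h
    rcases five_of_hull_meet hdisj h with h' | h'
    · exact Or.inl (key a b h')
    · exact Or.inr (key b a h')
  · rintro (h | h)
    · exact key' a b h
    · rw [Set.inter_comm]
      exact key' b a h

/-- The bipartite graph of a relation. -/
def bip {n : ℕ} (r : Fin n → Fin n → Prop) : SimpleGraph (Fin n ⊕ Fin n) where
  Adj
    | Sum.inl x, Sum.inr y => r x y
    | Sum.inr y, Sum.inl x => r x y
    | _, _ => False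
  symm := ⟨by
    rintro (x | y) (x' | y') h
    · exact h
    · exact h
    · exact h
    · exact h⟩
  loopless := ⟨by
    rintro (x | y) h
    · exact h
    · exact h⟩

/-- **There is a graph which is not 3-Tverberg.** -/
theorem result : ∃ (V : Type) (_ : Fintype V) (G : SimpleGraph V), ¬ IsTverberg 3 G := by
  obtain ⟨n, r, hr⟩ := exists_not_realizable
  refine ⟨Fin n ⊕ Fin n, inferInstance, bip r, ?_⟩
  rintro ⟨C, hC⟩
  obtain ⟨c, -, hadj, -⟩ := hC (pts (C + 1)) (genPos_pts _) (by rw [card_pts]; omega)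
  apply hr (word (C + 1) c)
  refine ⟨fun x x' hx h => ?_, fun y y' hy h => ?_, fun x y => ?_⟩
  · have hne : (Sum.inl x : Fin n ⊕ Fin n) ≠ Sum.inl x' := fun h => hx (Sum.inl_injective h)
    exact ((hadj _ _ hne).2 ((hull_inter_iff hne).2 (Or.inl h)) : (bip r).Adj _ _)
  · have hne : (Sum.inr y : Fin n ⊕ Fin n) ≠ Sum.inr y' := fun h => hy (Sum.inr_injective h)
    exact ((hadj _ _ hne).2 ((hull_inter_iff hne).2 (Or.inl h)) : (bip r).Adj _ _)
  · have hne : (Sum.inl x : Fin n ⊕ Fin n) ≠ Sum.inr y := Sum.inl_ne_inr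
    rw [← hull_inter_iff hne, ← hadj _ _ hne]
    rfl

end Pool.Agent.Results.MP_ba10a5_co.NotTverberg
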